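import Pool.Agent.W39.LE.Stm

set_option autoImplicit false

/-!
Parts POTA and POTB: the combinatorial inequalities, by potentials.
-/

namespace Pool.Agent.W73.LE

open Pool.W39.LE Pool.W39.LE.BT

/-- kinds of rooted trees: the one-vertex tree, the path with two vertices, longer odd and even paths,
and the other trees with (size odd, `av`, one child is an odd path) -/
inductive Sta : Type
  | lf : Sta
  | p2 : Sta
  | po : Sta
  | pe : Sta
  | x : Bool → Bool → Bool → Sta
  deriving DecidableEq

open Sta

def par : Sta → Bool
  | lf => true
  | p2 => false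
  | po => true
  | pe => false
  | x p _ _ => p

def avS : Sta → Bool
  | lf => true
  | p2 => false
  | po => true
  | pe => false
  | x _ v _ => v

def cS (B : Bool) : Sta → Bool
  | lf => false
  | p2 => B
  | po => false
  | pe => B
  | x _ _ c => c

def isP : Sta → Bool
  | lf => true
  | p2 => true
  | po => true
  | pe => true
  | x _ _ _ => false

def ix : Sta → ℕ
  | lf => 0
  | p2 => 1
  | po => 2
  | pe => 3
  | x p v c => 4 + (if p then 4 else 0) + (if v then 2 else 0) + (if c then 1 else 0)

/-- the kind of a join -/
def cb (B : Bool) : Sta → Sta → Sta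
  | lf, lf => p2
  | lf, p2 => po
  | lf, po => pe
  | lf, pe => po
  | s, t => x (xor (par s) (par t)) (avS s && !avS t) (cS B s || (B && isP t && par t))

def isL : Sta → Bool
  | lf => true
  | _ => false

def isT : Sta → Bool
  | p2 => true
  | _ => false

def dS (b : Bool) (s t : Sta) : ℕ :=
  if isL s then 0
  else if b then
    (if par s || !par t then 255 else if isT s && isL t then 235
      else if isT s || isL t then 212 else 180)
  else
    (if par s || !par t then 89 else if isT s && isL t then 110
      else if isT s || isL t then 79 else 64)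

def allS : List Sta := [lf, p2, po, pe, x false false false, x false false true,
  x false true false, x false true true, x true false false, x true false true,
  x true true false, x true true true]

theorem mem_allS (s : Sta) : s ∈ allS := by
  rcases s with _ | _ | _ | _ | ⟨p, v, c⟩
  · decide
  · decide
  · decide
  · decide
  · cases p <;> cases v <;> cases c <;> decide

/-- the potentials: `alpha` and the two tables, for `n = 6, 7, ..., 31` -/
def tabA : List (ℕ × List ℕ × List ℕ) := [
  (600, [998600, 1001200, 999800, 1002400, 1000344, 1000344, 999014, 999014, 1000414, 1000414, 998944, 998944], [998600, 1001200, 999800, 1002400, 1001340, 1001340, 999014, 999014, 1001210, 1001210, 998944, 998944]),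
  (483, [998483, 1000966, 999449, 1001932, 1000200, 1000200, 998685, 998685, 1000202, 1000202, 998683, 998683], [998483, 1000966, 999449, 1001932, 1001166, 1001166, 998685, 998685, 1001094, 1001094, 998683, 998683]),
  (448, [998448, 1000896, 999344, 1001792, 1000280, 1000280, 998672, 998672, 1000224, 1000224, 998728, 998728], [998448, 1000896, 999344, 1001792, 1001176, 1001176, 998672, 998672, 1001120, 1001120, 998728, 998728]),
  (423, [998423, 1000846, 999269, 1001692, 1000329, 1000329, 998682, 998682, 1000259, 1000259, 998752, 998752], [998423, 1000846, 999269, 1001692, 1001175, 1001175, 998682, 998682, 1001105, 1001105, 998752, 998752]),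
  (510, [998510, 1001020, 999530, 1002040, 1001050, 1001050, 999140, 999140, 1000630, 1000630, 999560, 999560], [998510, 1001020, 999530, 1002040, 1002070, 1002070, 999140, 999140, 1001650, 1001650, 999560, 999560]),
  (363, [998363, 1000726, 999089, 1001452, 1000367, 1000367, 998662, 998662, 1000299, 1000299, 998730, 998730], [998363, 1000726, 999089, 1001452, 1001093, 1001093, 998662, 998662, 1001025, 1001025, 998730, 998730]),
  (468, [998468, 1000936, 999404, 1001872, 1001196, 1001196, 999192, 999192, 1000724, 1000724, 999664, 999664], [998468, 1000936, 999404, 1001872, 1002132, 1002132, 999192, 999192, 1001660, 1001660, 999664, 999664]),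
  (312, [998312, 1000624, 998936, 1001248, 1000459, 1000459, 998678, 998678, 1000366, 1000366, 998771, 998771], [998312, 1000624, 998936, 1001248, 1001083, 1001083, 998678, 998678, 1000990, 1000990, 998771, 998771]),
  (280, [998280, 1000560, 998840, 1001120, 1000466, 1000466, 998660, 998660, 1000380, 1000380, 998746, 998746], [998280, 1000560, 998840, 1001120, 1001026, 1001026, 998660, 998660, 1000940, 1000940, 998746, 998746]),
  (255, [998255, 1000510, 998765, 1001020, 1000515, 1000515, 998670, 998670, 1000415, 1000415, 998770, 998770], [998255, 1000510, 998765, 1001020, 1001025, 1001025, 998670, 998670, 1000925, 1000925, 998770, 998770]),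
  (224, [998224, 1000448, 998672, 1000896, 1000480, 1000480, 998608, 998608, 1000384, 1000384, 998704, 998704], [998224, 1000448, 998672, 1000896, 1000928, 1000928, 998608, 998608, 1000832, 1000832, 998704, 998704]),
  (204, [998204, 1000408, 998612, 1000816, 1000488, 1000488, 998567, 998567, 1000363, 1000363, 998692, 998692], [998204, 1000408, 998612, 1000816, 1000896, 1000896, 998567, 998567, 1000771, 1000771, 998692, 998692]),
  (180, [998180, 1000360, 998540, 1000720, 1000464, 1000464, 998502, 998502, 1000322, 1000322, 998644, 998644], [998180, 1000360, 998540, 1000720, 1000824, 1000824, 998502, 998502, 1000682, 1000682, 998644, 998644]),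
  (152, [998152, 1000304, 998456, 1000608, 1000408, 1000408, 998413, 998413, 1000261, 1000261, 998560, 998560], [998152, 1000304, 998456, 1000608, 1000712, 1000712, 998413, 998413, 1000565, 1000565, 998560, 998560]),
  (120, [998120, 1000240, 998360, 1000480, 1000260, 1000260, 998240, 998240, 1000120, 1000120, 998380, 998380], [998120, 1000240, 998360, 1000480, 1000500, 1000500, 998240, 998240, 1000360, 1000360, 998380, 998380]),
  (105, [998105, 1000210, 998315, 1000420, 1000263, 1000263, 998184, 998184, 1000079, 1000079, 998368, 998368], [998105, 1000210, 998315, 1000420, 1000473, 1000473, 998184, 998184, 1000289, 1000289, 998368, 998368]),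
  (88, [998088, 1000176, 998264, 1000352, 1000246, 1000246, 998112, 998112, 1000024, 1000024, 998334, 998334], [998088, 1000176, 998264, 1000352, 1000422, 1000422, 998112, 998112, 1000200, 1000200, 998334, 998334]),
  (69, [998069, 1000138, 998207, 1000276, 1000209, 1000209, 998024, 998024, 999955, 999955, 998278, 998278], [998069, 1000138, 998207, 1000276, 1000347, 1000347, 998024, 998024, 1000093, 1000093, 998278, 998278]),
  (48, [998048, 1000096, 998144, 1000192, 1000152, 1000152, 997920, 997920, 999872, 999872, 998200, 998200], [998048, 1000096, 998144, 1000192, 1000248, 1000248, 997920, 997920, 999968, 999968, 998200, 998200]),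
  (25, [998025, 1000050, 998075, 1000100, 1000075, 1000075, 997800, 997800, 999775, 999775, 998100, 998100], [998025, 1000050, 998075, 1000100, 1000125, 1000125, 997800, 997800, 999825, 999825, 998100, 998100]),
  (26, [998026, 1000052, 998078, 1000104, 1000238, 1000238, 997872, 997872, 999846, 999846, 998264, 998264], [998026, 1000052, 998078, 1000104, 1000290, 1000290, 997872, 997872, 999898, 999898, 998264, 998264]),
  (0, [998000, 1000000, 998000, 1000000, 1000131, 1000131, 997728, 997728, 999728, 999728, 998131, 998131], [998000, 1000000, 998000, 1000000, 1000131, 1000131, 997728, 997728, 999728, 999728, 998131, 998131]),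
  (0, [998000, 1000000, 998000, 1000000, 1000284, 1000284, 997792, 997792, 999792, 999792, 998284, 998284], [998000, 1000000, 998000, 1000000, 1000284, 1000284, 997792, 997792, 999792, 999792, 998284, 998284]),
  (0, [998000, 1000000, 998000, 1000000, 1000437, 1000437, 997856, 997856, 999856, 999856, 998437, 998437], [998000, 1000000, 998000, 1000000, 1000437, 1000437, 997856, 997856, 999856, 999856, 998437, 998437]),
  (0, [998000, 1000000, 998000, 1000000, 1000590, 1000590, 997920, 997920, 999920, 999920, 998590, 998590], [998000, 1000000, 998000, 1000000, 1000590, 1000590, 997920, 997920, 999920, 999920, 998590, 998590]),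
  (0, [998000, 1000000, 998000, 1000000, 1000743, 1000743, 997984, 997984, 999984, 999984, 998743, 998743], [998000, 1000000, 998000, 1000000, 1000743, 1000743, 997984, 997984, 999984, 999984, 998743, 998743])]

/-- the potentials: `alpha` and the two tables, for `n = 6, 7, ..., 31` -/
def tabB : List (ℕ × List ℕ × List ℕ) := [
  (504, [998504, 1001008, 999512, 1002016, 1003558, 1002550, 1001040, 2000000, 1003544, 1002536, 1001054, 2000000], [998504, 1001008, 999512, 1002016, 1003558, 1003546, 1001040, 2000000, 1003544, 1003334, 1001054, 2000000]),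
  (476, [998476, 1000952, 999428, 1001904, 1003479, 1002527, 1000984, 2000000, 1003460, 1002508, 1001003, 2000000], [998476, 1000952, 999428, 1001904, 1003479, 1003689, 1000984, 2000000, 1003460, 1003439, 1001003, 2000000]),
  (448, [998448, 1000896, 999344, 1001792, 1003400, 1002504, 1000928, 2000000, 1003376, 1002480, 1000952, 2000000], [998448, 1000896, 999344, 1001792, 1003400, 1003832, 1000928, 2000000, 1003376, 1003544, 1000952, 2000000]),
  (423, [998423, 1000846, 999269, 1001692, 1003339, 1002493, 1000896, 2000000, 1003319, 1002473, 1000916, 2000000], [998423, 1000846, 999269, 1001692, 1003339, 1003987, 1000896, 2000000, 1003319, 1003670, 1000916, 2000000]),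
  (390, [998390, 1000780, 999170, 1001560, 1003230, 1002450, 1000800, 2000000, 1003190, 1002410, 1000840, 2000000], [998390, 1000780, 999170, 1001560, 1003230, 1004110, 1000800, 2000000, 1003190, 1003740, 1000840, 2000000]),
  (363, [998363, 1000726, 999089, 1001452, 1003157, 1002431, 1000752, 2000000, 1003115, 1002389, 1000794, 2000000], [998363, 1000726, 999089, 1001452, 1003157, 1004257, 1000752, 2000000, 1003115, 1003852, 1000794, 2000000]),
  (336, [998336, 1000672, 999008, 1001344, 1003084, 1002412, 1000704, 2000000, 1003040, 1002368, 1000748, 2000000], [998336, 1000672, 999008, 1001344, 1003084, 1004404, 1000704, 2000000, 1003040, 1003964, 1000748, 2000000]),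
  (312, [998312, 1000624, 998936, 1001248, 1003029, 1002405, 1000680, 2000000, 1002992, 1002368, 1000717, 2000000], [998312, 1000624, 998936, 1001248, 1003029, 1004563, 1000680, 2000000, 1002992, 1004097, 1000717, 2000000]),
  (280, [998280, 1000560, 998840, 1001120, 1002926, 1002366, 1000592, 2000000, 1002872, 1002312, 1000646, 2000000], [998280, 1000560, 998840, 1001120, 1002926, 1004690, 1000592, 2000000, 1002872, 1004174, 1000646, 2000000]),
  (255, [998255, 1000510, 998765, 1001020, 1002865, 1002355, 1000560, 2000000, 1002815, 1002305, 1000610, 2000000], [998255, 1000510, 998765, 1001020, 1002865, 1004845, 1000560, 2000000, 1002815, 1004300, 1000610, 2000000]),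
  (224, [998224, 1000448, 998672, 1000896, 1002768, 1002320, 1000480, 2000000, 1002704, 1002256, 1000544, 2000000], [998224, 1000448, 998672, 1000896, 1002768, 1004976, 1000480, 2000000, 1002704, 1004320, 1000544, 2000000]),
  (204, [998204, 1000408, 998612, 1000816, 1002737, 1002329, 1000488, 2000000, 1002692, 1002284, 1000533, 2000000], [998204, 1000408, 998612, 1000816, 1002737, 1005151, 1000488, 2000000, 1002692, 1004409, 1000533, 2000000]),
  (180, [998180, 1000360, 998540, 1000720, 1002682, 1002322, 1000464, 2000000, 1002644, 1002284, 1000502, 2000000], [998180, 1000360, 998540, 1000720, 1002682, 1005310, 1000464, 2000000, 1002644, 1004462, 1000502, 2000000]),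
  (152, [998152, 1000304, 998456, 1000608, 1002603, 1002299, 1000408, 2000000, 1002560, 1002256, 1000451, 2000000], [998152, 1000304, 998456, 1000608, 1002603, 1005453, 1000408, 2000000, 1002560, 1004479, 1000451, 2000000]),
  (120, [998120, 1000240, 998360, 1000480, 1002500, 1002260, 1000260, 2000000, 1002380, 1002140, 1000380, 2000000], [998120, 1000240, 998360, 1000480, 1002500, 1005580, 1000260, 2000000, 1002380, 1004460, 1000380, 2000000]),
  (105, [998105, 1000210, 998315, 1000420, 1002499, 1002289, 1000263, 2000000, 1002368, 1002158, 1000394, 2000000], [998105, 1000210, 998315, 1000420, 1002499, 1005775, 1000263, 2000000, 1002368, 1004594, 1000394, 2000000]),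
  (88, [998088, 1000176, 998264, 1000352, 1002486, 1002310, 1000246, 2000000, 1002334, 1002158, 1000398, 2000000], [998088, 1000176, 998264, 1000352, 1002486, 1005962, 1000246, 2000000, 1002334, 1004710, 1000398, 2000000]),
  (69, [998069, 1000138, 998207, 1000276, 1002461, 1002323, 1000209, 2000000, 1002278, 1002140, 1000392, 2000000], [998069, 1000138, 998207, 1000276, 1002461, 1006141, 1000209, 2000000, 1002278, 1004808, 1000392, 2000000]),
  (48, [998048, 1000096, 998144, 1000192, 1002424, 1002328, 1000152, 2000000, 1002200, 1002104, 1000376, 2000000], [998048, 1000096, 998144, 1000192, 1002424, 1006312, 1000152, 2000000, 1002200, 1004888, 1000376, 2000000]),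
  (25, [998025, 1000050, 998075, 1000100, 1002375, 1002325, 1000075, 2000000, 1002100, 1002050, 1000350, 2000000], [998025, 1000050, 998075, 1000100, 1002375, 1006475, 1000075, 2000000, 1002100, 1004950, 1000350, 2000000]),
  (26, [998026, 1000052, 998078, 1000104, 1002470, 1002418, 1000238, 2000000, 1002264, 1002212, 1000444, 2000000], [998026, 1000052, 998078, 1000104, 1002470, 1006734, 1000238, 2000000, 1002264, 1005228, 1000444, 2000000]),
  (0, [998000, 1000000, 998000, 1000000, 1002403, 1002403, 1000131, 2000000, 1002131, 1002131, 1000403, 2000000], [998000, 1000000, 998000, 1000000, 1002403, 1006885, 1000131, 2000000, 1002131, 1005263, 1000403, 2000000]),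
  (0, [998000, 1000000, 998000, 1000000, 1002492, 1002492, 1000284, 2000000, 1002284, 1002284, 1000492, 2000000], [998000, 1000000, 998000, 1000000, 1002492, 1007140, 1000284, 2000000, 1002284, 1005532, 1000492, 2000000]),
  (0, [998000, 1000000, 998000, 1000000, 1002581, 1002581, 1000437, 2000000, 1002437, 1002437, 1000581, 2000000], [998000, 1000000, 998000, 1000000, 1002581, 1007395, 1000437, 2000000, 1002437, 1005801, 1000581, 2000000]),
  (0, [998000, 1000000, 998000, 1000000, 1002670, 1002670, 1000590, 2000000, 1002590, 1002590, 1000670, 2000000], [998000, 1000000, 998000, 1000000, 1002670, 1007650, 1000590, 2000000, 1002590, 1006070, 1000670, 2000000]),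
  (0, [998000, 1000000, 998000, 1000000, 1002759, 1002759, 1000743, 2000000, 1002743, 1002743, 1000759, 2000000], [998000, 1000000, 998000, 1000000, 1002759, 1007905, 1000743, 2000000, 1002743, 1006339, 1000759, 2000000])]

/-- closure of the tables under joins -/
def closed (B : Bool) (n α : ℕ) (F0 F1 : List ℕ) : Bool :=
  decide (F0.getD 0 0 + 2000 ≤ 1000000 + α) && decide (F1.getD 0 0 + 2000 ≤ 1000000 + α) &&
  allS.all fun s => allS.all fun t =>
    (cS B s && (B && isP t && par t)) ||
    (decide (F0.getD (ix (cb B s t)) 0 + 1000000 ≤ F1.getD (ix s) 0 + F0.getD (ix t) 0 +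
        n * dS false s t + (if avS s && avS t then 4000 else 0)) &&
     decide (F1.getD (ix (cb B s t)) 0 + 1000000 ≤ F1.getD (ix s) 0 + F0.getD (ix t) 0 +
        n * dS true s t + (if avS s && avS t then 4000 else 0)))

/-- compatibility of a kind with a size -/
def cmp (m : ℕ) : Sta → Bool
  | lf => false
  | p2 => decide (m = 2)
  | po => decide (3 ≤ m) && decide (m % 2 = 1)
  | pe => decide (4 ≤ m) && decide (m % 2 = 0)
  | x p _ _ => decide (3 ≤ m) && (decide (m % 2 = 1) == p)

/-- the final inequality -/
def fin1 (B : Bool) (n α : ℕ) (F1 : List ℕ) (a b : ℕ) (s : Sta) : Bool :=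
  !(cmp (n - a - b - 2) s) ||
  (B && decide (2 ≤ (if cS B s then 1 else 0) + (1 - a % 2) + (1 - b % 2))) ||
  (if isP s then
    decide (2000 * ((n - a - b - 2) % 2) + 2000 * ((1 - a % 2) + (1 - b % 2)) ≤
      n * Lt (a + 1) (b + 1) (n - a - b - 2 - 1) +
        (if avS s && (decide (a % 2 = 0) || decide (b % 2 = 0)) then 4000 else 0) + 2000 * (n % 2))
  else
    decide (2000 * ((1 - a % 2) + (1 - b % 2)) + α * (n - a - b - 2) + 1000000 ≤
      F1.getD (ix s) 0 + (n * Lt (a + 1) (b + 1) (n - a - b - 2 - 1) +
        (if avS s && (decide (a % 2 = 0) || decide (b % 2 = 0)) then 4000 else 0) +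
          2000 * (n % 2))))

def fin (B : Bool) (n α : ℕ) (F1 : List ℕ) : Bool :=
  (List.range n).all fun a => (List.range n).all fun b =>
    decide (n < a + b + 4) || (!B && (decide (a % 2 = 1) || decide (b % 2 = 1))) ||
      allS.all fun s => fin1 B n α F1 a b s

def chk (B : Bool) (T : List (ℕ × List ℕ × List ℕ)) : Bool :=
  (List.range 26).all fun i =>
    closed B (i + 6) (T.getD i (0, [], [])).1 (T.getD i (0, [], [])).2.1
        (T.getD i (0, [], [])).2.2 &&
      fin B (i + 6) (T.getD i (0, [], [])).1 (T.getD i (0, [], [])).2.2

theorem chkA : chk false tabA = true := by decide +kernel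

theorem chkB : chk true tabB = true := by decide +kernel

/-! ### the kind of a tree -/

def CB (B : Bool) : ℕ → Bool := fun k => B && decide (k % 2 = 1)

def kd (B : Bool) (t : BT) : Sta :=
  if t.isp then (if t.size = 1 then lf else if t.size = 2 then p2 else
    if t.size % 2 = 1 then po else pe)
  else x (decide (t.size % 2 = 1)) t.av (decide (cnt (CB B) t = 1))

theorem size_pos (t : BT) : 1 ≤ t.size := by
  induction t with
  | leaf => exact le_rfl
  | join s t ihs iht => show 1 ≤ s.size + t.size; omega

theorem size_one {t : BT} (h : t.size = 1) : t = leaf := by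
  cases t with
  | leaf => rfl
  | join s t =>
    have h1 := size_pos s
    have h2 := size_pos t
    have h3 : s.size + t.size = 1 := h
    omega

theorem size_two {t : BT} (h : t.size = 2) : t = join leaf leaf := by
  cases t with
  | leaf => exact absurd h (by decide)
  | join s t =>
    have h1 := size_pos s
    have h2 := size_pos t
    have h3 : s.size + t.size = 2 := h
    rw [size_one (t := s) (by omega), size_one (t := t) (by omega)]

theorem isp_join {s t : BT} (h : isp (join s t) = true) : s = leaf ∧ isp t = true := by
  cases s with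
  | leaf => exact ⟨rfl, h⟩
  | join a b => exact absurd h (by simp [isp])

theorem isp_facts (B : Bool) (t : BT) (h : isp t = true) :
    av t = decide (t.size % 2 = 1) ∧
      cnt (CB B) t = (if B && decide (t.size % 2 = 0) then 1 else 0) ∧ t.size / 2 ≤ nu t := by
  induction t with
  | leaf => cases B <;> exact ⟨rfl, rfl, le_rfl⟩
  | join s t ihs iht =>
    obtain ⟨rfl, ht⟩ := isp_join h
    obtain ⟨h1, h2, h3⟩ := iht ht
    have hsz : (join leaf t).size = 1 + t.size := rfl
    refine ⟨?_, ?_, ?_⟩
    · show (true && !av t) = _
      rw [h1, hsz, Bool.true_and]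
      rcases Nat.mod_two_eq_zero_or_one t.size with h4 | h4
      · have h5 : (1 + t.size) % 2 = 1 := by omega
        rw [h4, h5]; rfl
      · have h5 : (1 + t.size) % 2 = 0 := by omega
        rw [h4, h5]; rfl
    · show 0 + (if isp t && CB B t.size then 1 else 0) = _
      rw [ht, hsz, zero_add, Bool.true_and]
      unfold CB
      rcases Nat.mod_two_eq_zero_or_one t.size with h4 | h4
      · have h5 : (1 + t.size) % 2 = 1 := by omega
        rw [h4, h5]
        rfl
      · have h5 : (1 + t.size) % 2 = 0 := by omega
        rw [h4, h5]
        rfl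
    · show (1 + t.size) / 2 ≤ 0 + nu t + (if true && av t then 1 else 0)
      rw [h1, Bool.true_and]
      rcases Nat.mod_two_eq_zero_or_one t.size with h4 | h4
      · rw [h4]
        have : ¬ ((decide ((0 : ℕ) = 1)) = true) := by decide
        rw [if_neg this]
        omega
      · rw [h4]
        have : (decide ((1 : ℕ) = 1)) = true := by decide
        rw [if_pos this]
        omega

theorem isp_of_size_le {t : BT} (h : t.size ≤ 2) : isp t = true := by
  have := size_pos t
  rcases (by omega : t.size = 1 ∨ t.size = 2) with h1 | h1
  · rw [size_one h1]; rfl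
  · rw [size_two h1]; rfl

theorem par_kd (B : Bool) (t : BT) : par (kd B t) = decide (t.size % 2 = 1) := by
  unfold kd
  split_ifs with h1 h2 h3 h4
  · rw [h2]; rfl
  · rw [h3]; rfl
  · rw [h4]; rfl
  · have : t.size % 2 = 0 := by omega
    rw [this]; rfl
  · rfl

theorem av_kd (B : Bool) (t : BT) : avS (kd B t) = av t := by
  unfold kd
  split_ifs with h1 h2 h3 h4
  · rw [(isp_facts B t h1).1, h2]; rfl
  · rw [(isp_facts B t h1).1, h3]; rfl
  · rw [(isp_facts B t h1).1, h4]; rfl
  · have : t.size % 2 = 0 := by omega
    rw [(isp_facts B t h1).1, this]; rfl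
  · rfl

theorem isP_kd (B : Bool) (t : BT) : isP (kd B t) = isp t := by
  unfold kd
  split_ifs with h1 h2 h3 h4
  · rw [h1]; rfl
  · rw [h1]; rfl
  · rw [h1]; rfl
  · rw [h1]; rfl
  · have : isp t = false := by simpa using h1
    rw [this]; rfl

theorem cS_kd (B : Bool) (t : BT) : cS B (kd B t) = decide (cnt (CB B) t = 1) := by
  unfold kd
  split_ifs with h1 h2 h3 h4
  · rw [(isp_facts B t h1).2.1, h2]; cases B <;> rfl
  · rw [(isp_facts B t h1).2.1, h3]; cases B <;> rfl
  · rw [(isp_facts B t h1).2.1, h4]; cases B <;> rfl
  · have : t.size % 2 = 0 := by omega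
    rw [(isp_facts B t h1).2.1, this]; cases B <;> rfl
  · rfl

theorem isL_kd (B : Bool) (t : BT) : isL (kd B t) = decide (t.size = 1) := by
  unfold kd
  split_ifs with h1 h2 h3 h4
  · rw [h2]; rfl
  · rw [h3]; rfl
  · rw [decide_eq_false h2]; rfl
  · rw [decide_eq_false h2]; rfl
  · have : ¬ t.size = 1 := fun h => h1 (isp_of_size_le (by omega))
    rw [decide_eq_false this]; rfl

theorem isT_kd (B : Bool) (t : BT) : isT (kd B t) = decide (t.size = 2) := by
  unfold kd
  split_ifs with h1 h2 h3 h4
  · rw [h2]; rfl
  · rw [h3]; rfl
  · rw [decide_eq_false h3]; rfl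
  · rw [decide_eq_false h3]; rfl
  · have : ¬ t.size = 2 := fun h => h1 (isp_of_size_le (by omega))
    rw [decide_eq_false this]; rfl

/-- the general branch of `cb` -/
theorem cb_gen (B : Bool) (s t : Sta) (h : isL s = false ∨ isP t = false) :
    cb B s t = x (xor (par s) (par t)) (avS s && !avS t) (cS B s || (B && isP t && par t)) := by
  cases s <;> cases t <;> first | rfl | (rcases h with h | h <;> exact absurd h (by decide))

theorem kd_join (B : Bool) (s t : BT) (hc : cnt (CB B) (join s t) ≤ 1) :
    kd B (join s t) = cb B (kd B s) (kd B t) := by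
  by_cases hp : isp (join s t) = true
  · obtain ⟨rfl, ht⟩ := isp_join hp
    have h0 : kd B leaf = lf := rfl
    have hsz : (join leaf t).size = 1 + t.size := rfl
    have h1 := size_pos t
    rw [h0]
    unfold kd
    rw [if_pos hp, if_pos ht, hsz, if_neg (by omega : ¬ 1 + t.size = 1)]
    by_cases h2 : t.size = 1
    · rw [if_pos h2, if_pos (by omega : 1 + t.size = 2)]; rfl
    · rw [if_neg h2, if_neg (by omega : ¬ 1 + t.size = 2)]
      by_cases h3 : t.size = 2
      · rw [if_pos h3, if_pos (by omega : (1 + t.size) % 2 = 1)]; rfl
      · rw [if_neg h3]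
        by_cases h4 : t.size % 2 = 1
        · rw [if_pos h4, if_neg (by omega : ¬ (1 + t.size) % 2 = 1)]; rfl
        · rw [if_neg h4, if_pos (by omega : (1 + t.size) % 2 = 1)]; rfl
  · have hgen : isL (kd B s) = false ∨ isP (kd B t) = false := by
      rw [isL_kd, isP_kd]
      by_cases h1 : s.size = 1
      · right
        by_contra h2
        apply hp
        rw [size_one h1]
        show isp t = true
        simpa using h2
      · left
        exact decide_eq_false h1
    rw [cb_gen B _ _ hgen, par_kd, par_kd, av_kd, av_kd, cS_kd, isP_kd]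
    unfold kd
    rw [if_neg hp]
    have hsz : (join s t).size = s.size + t.size := rfl
    have hct : cnt (CB B) (join s t) =
      cnt (CB B) s + (if isp t && CB B t.size then 1 else 0) := rfl
    congr 1
    · rw [hsz]
      rcases Nat.mod_two_eq_zero_or_one s.size with h1 | h1 <;>
        rcases Nat.mod_two_eq_zero_or_one t.size with h2 | h2
      · rw [h1, h2, (by omega : (s.size + t.size) % 2 = 0)]; rfl
      · rw [h1, h2, (by omega : (s.size + t.size) % 2 = 1)]; rfl
      · rw [h1, h2, (by omega : (s.size + t.size) % 2 = 1)]; rfl
      · rw [h1, h2, (by omega : (s.size + t.size) % 2 = 0)]; rfl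
    · rw [hct] at hc ⊢
      have h1 : (isp t && CB B t.size) = (B && isp t && decide (t.size % 2 = 1)) := by
        unfold CB
        cases B <;> cases isp t <;> simp
      rw [h1] at hc ⊢
      cases h2 : (B && isp t && decide (t.size % 2 = 1))
      · rw [if_neg (by simp), add_zero, Bool.or_false]
      · rw [h2, if_pos rfl] at hc
        rw [if_pos rfl, Bool.or_true]
        have : cnt (CB B) s + 1 = 1 := by omega
        rw [this]; rfl

theorem dS_kd (B : Bool) (s t : BT) (b : Bool) :
    (if s = leaf then 0 else if b then d2 (s.size - 1) t.size else d1 (s.size - 1) t.size) =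
      dS b (kd B s) (kd B t) := by
  unfold dS d1 d2
  rw [isL_kd, isT_kd, isL_kd, par_kd, par_kd]
  have h1 := size_pos s
  have h2 := size_pos t
  by_cases hs : s = leaf
  · subst hs
    rw [if_pos rfl, if_pos (by rfl)]
  · have hs1 : ¬ s.size = 1 := fun h => hs (size_one h)
    rw [if_neg hs, if_neg (show ¬ decide (s.size = 1) = true by simpa using hs1)]
    have e1 : ((s.size - 1) % 2 = 0 ∨ t.size % 2 = 0) ↔
        (decide (s.size % 2 = 1) || !decide (t.size % 2 = 1)) = true := by
      simp only [Bool.or_eq_true, decide_eq_true_eq, Bool.not_eq_true', decide_eq_false_iff_not]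
      omega
    have e2 : (s.size - 1 = 1 ∧ t.size = 1) ↔
        (decide (s.size = 2) && decide (t.size = 1)) = true := by
      simp only [Bool.and_eq_true, decide_eq_true_eq]
      omega
    have e3 : (s.size - 1 = 1 ∨ t.size = 1) ↔
        (decide (s.size = 2) || decide (t.size = 1)) = true := by
      simp only [Bool.or_eq_true, decide_eq_true_eq]
      omega
    simp only [e1, e2, e3]

theorem G_join (B : Bool) (s t : BT) (b : Bool) :
    G (join s t) b = G s true + G t false + dS b (kd B s) (kd B t) := by
  rw [← dS_kd]
  rfl

def getF (F0 F1 : List ℕ) (b : Bool) (s : Sta) : ℕ := if b then F1.getD (ix s) 0 else F0.getD (ix s) 0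

theorem pot (B : Bool) (n α : ℕ) (F0 F1 : List ℕ) (hcl : closed B n α F0 F1 = true) (t : BT)
    (hg : good (CB B) t = true) (b : Bool) :
    getF F0 F1 b (kd B t) + 2000 * t.size ≤ 1000000 + n * G t b + 4000 * nu t + α * t.size := by
  unfold closed at hcl
  rw [Bool.and_eq_true, Bool.and_eq_true, decide_eq_true_eq, decide_eq_true_eq,
    List.all_eq_true] at hcl
  obtain ⟨⟨h0, h1⟩, h2⟩ := hcl
  induction t generalizing b with
  | leaf =>
    have e0 : kd B leaf = lf := rfl
    have e1 : G leaf b = 0 := rfl
    have e2 : nu leaf = 0 := rfl
    have e3 : size leaf = 1 := rfl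
    rw [e0, e1, e2, e3]
    cases b
    · show F0.getD 0 0 + _ ≤ _
      omega
    · show F1.getD 0 0 + _ ≤ _
      omega
  | join s t ihs iht =>
    have hg' : (good (CB B) s && good (CB B) t && decide (cnt (CB B) (join s t) ≤ 1)) = true := hg
    rw [Bool.and_eq_true, Bool.and_eq_true, decide_eq_true_eq] at hg'
    obtain ⟨⟨hs, ht⟩, hc⟩ := hg'
    have i1 := ihs hs true
    have i2 := iht ht false
    have h3 := h2 (kd B s) (mem_allS _)
    rw [List.all_eq_true] at h3
    have h4 := h3 (kd B t) (mem_allS _)
    rw [Bool.or_eq_true, Bool.and_eq_true (a := decide _), decide_eq_true_eq, decide_eq_true_eq]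
      at h4
    have hct : cnt (CB B) (join s t) =
      cnt (CB B) s + (if isp t && CB B t.size then 1 else 0) := rfl
    have h5 : ¬ ((cS B (kd B s) && (B && isP (kd B t) && par (kd B t))) = true) := by
      rw [cS_kd, isP_kd, par_kd]
      intro h
      rw [Bool.and_eq_true, decide_eq_true_eq] at h
      have h6 : (isp t && CB B t.size) = (B && isp t && decide (t.size % 2 = 1)) := by
        unfold CB
        cases B <;> cases isp t <;> simp
      rw [h6, h.2, if_pos rfl, h.1] at hct
      omega
    have h7 := h4.resolve_left h5
    rw [kd_join B s t hc, G_join B]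
    have e2 : nu (join s t) = nu s + nu t + (if av s && av t then 1 else 0) := rfl
    have e3 : (join s t).size = s.size + t.size := rfl
    rw [e2, e3]
    rw [av_kd, av_kd] at h7
    have e4 : (if (av s && av t) = true then 4000 else 0) =
        4000 * (if (av s && av t) = true then 1 else 0) := by split_ifs <;> rfl
    rw [e4] at h7
    have i1' : F1.getD (ix (kd B s)) 0 + 2000 * s.size ≤
        1000000 + n * G s true + 4000 * nu s + α * s.size := i1
    have i2' : F0.getD (ix (kd B t)) 0 + 2000 * t.size ≤
        1000000 + n * G t false + 4000 * nu t + α * t.size := i2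
    have e5 : n * (G s true + G t false + dS b (kd B s) (kd B t)) =
        n * G s true + n * G t false + n * dS b (kd B s) (kd B t) := by ring
    have e6 : α * (s.size + t.size) = α * s.size + α * t.size := by ring
    rw [e5, e6]
    cases b
    · show F0.getD (ix (cb B (kd B s) (kd B t))) 0 + _ ≤ _
      have h8 := h7.1
      omega
    · show F1.getD (ix (cb B (kd B s) (kd B t))) 0 + _ ≤ _
      have h8 := h7.2
      omega

/-! ### paths -/

theorem size_pth (a : ℕ) : (pth a).size = a + 1 := by
  induction a with
  | zero => rfl
  | succ a ih => show 1 + (pth a).size = _; omega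

theorem isp_pth (a : ℕ) : isp (pth a) = true := by
  induction a with
  | zero => rfl
  | succ a ih => exact ih

theorem av_pth (a : ℕ) : av (pth a) = decide (a % 2 = 0) := by
  rw [(isp_facts true _ (isp_pth a)).1, size_pth]
  rcases Nat.mod_two_eq_zero_or_one a with h | h
  · rw [h, (by omega : (a + 1) % 2 = 1)]; rfl
  · rw [h, (by omega : (a + 1) % 2 = 0)]; rfl

theorem nu_pth (a : ℕ) : (a + 1) / 2 ≤ nu (pth a) := by
  have := (isp_facts true _ (isp_pth a)).2.2
  rwa [size_pth] at this

theorem nu_T (X : BT) (a b : ℕ) :
    nu X + (a + 1) / 2 + (b + 1) / 2 +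
      (if av X && (decide (a % 2 = 0) || decide (b % 2 = 0)) then 1 else 0) ≤
      nu (join (join X (pth a)) (pth b)) := by
  have e : nu (join (join X (pth a)) (pth b)) = nu X + nu (pth a) +
      (if av X && av (pth a) then 1 else 0) + nu (pth b) +
      (if (av X && !av (pth a)) && av (pth b) then 1 else 0) := rfl
  have h1 := nu_pth a
  have h2 := nu_pth b
  rw [e, av_pth, av_pth]
  have h3 : (if (av X && (decide (a % 2 = 0) || decide (b % 2 = 0))) = true then 1 else 0) ≤
      (if (av X && decide (a % 2 = 0)) = true then 1 else 0) +
      (if ((av X && !decide (a % 2 = 0)) && decide (b % 2 = 0)) = true then 1 else 0) := by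
    cases av X <;> cases decide (a % 2 = 0) <;> cases decide (b % 2 = 0) <;> decide
  omega

/-! ### large `n` -/

theorem big (n : ℕ) (hn : 32 ≤ n) (t : BT) (b : Bool) :
    2000 * t.size ≤ n * G t b + 4000 * nu t + (if av t then 2000 else 0) := by
  induction t generalizing b with
  | leaf => show 2000 * 1 ≤ n * 0 + 4000 * 0 + 2000; omega
  | join s t ihs iht =>
    have i1 := ihs true
    have i2 := iht false
    have e1 : G (join s t) b = G s true + G t false +
      (if s = leaf then 0 else if b then d2 (s.size - 1) t.size else d1 (s.size - 1) t.size) := rfl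
    have e2 : nu (join s t) = nu s + nu t + (if av s && av t then 1 else 0) := rfl
    have e3 : (join s t).size = s.size + t.size := rfl
    have e4 : av (join s t) = (av s && !av t) := rfl
    rw [e1, e2, e3, e4]
    by_cases hs : s = leaf
    · subst hs
      have e5 : av leaf = true := rfl
      have e6 : n * (G leaf true + G t false) = n * G leaf true + n * G t false := mul_add _ _ _
      rw [if_pos rfl, add_zero, e6, e5]
      rw [e5] at i1
      cases h : av t
      · rw [h] at i2
        simp only [if_true, Bool.false_eq_true, if_false, Bool.and_false, Bool.not_false,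
          Bool.and_true] at i1 i2 ⊢
        omega
      · rw [h] at i2
        simp only [if_true, Bool.false_eq_true, if_false, Bool.and_false, Bool.not_true,
          Bool.and_true] at i1 i2 ⊢
        omega
    · rw [if_neg hs]
      have hd : 64 ≤ (if b = true then d2 (s.size - 1) t.size else d1 (s.size - 1) t.size) := by
        unfold d1 d2
        split_ifs <;> decide
      obtain ⟨d, hdd⟩ : ∃ d, d = (if b = true then d2 (s.size - 1) t.size else
        d1 (s.size - 1) t.size) := ⟨_, rfl⟩
      rw [← hdd] at hd ⊢
      have h1 : 2048 ≤ n * d := by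
        calc 2048 = 32 * 64 := by norm_num
          _ ≤ n * d := Nat.mul_le_mul hn hd
      have e6 : n * (G s true + G t false + d) = n * G s true + n * G t false + n * d := by ring
      rw [e6]
      cases h : av s <;> cases h' : av t <;>
        · rw [h] at i1
          rw [h'] at i2
          simp only [if_true, Bool.false_eq_true, if_false, Bool.and_false, Bool.not_true,
            Bool.and_true, Bool.not_false, Bool.false_and] at i1 i2 ⊢
          omega

theorem Lt_ge (a b c : ℕ) : 300 ≤ Lt a b c := by
  unfold Lt
  simp only
  split_ifs <;> decide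

theorem large (X : BT) (a b n : ℕ) (hn : n = X.size + a + b + 2) (h32 : 32 ≤ n) :
    4000 * (n / 2) ≤ n * (G X true + Lt (a + 1) (b + 1) (X.size - 1)) +
      4000 * nu (join (join X (pth a)) (pth b)) := by
  have h1 := big n h32 X true
  have h2 := nu_T X a b
  have h3 : (if av X = true then 2000 else 0) ≤ 2000 := by split_ifs <;> decide
  have h4 : 32 * 300 ≤ n * Lt (a + 1) (b + 1) (X.size - 1) := Nat.mul_le_mul h32 (Lt_ge _ _ _)
  rw [mul_add]
  omega

/-! ### small `n` -/

theorem small (B : Bool) (n α : ℕ) (F0 F1 : List ℕ) (hcl : closed B n α F0 F1 = true)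
    (hfin : fin B n α F1 = true) (X : BT) (a b : ℕ)
    (hg : good (CB B) X = true) (hX : 2 ≤ X.size) (hn : n = X.size + a + b + 2)
    (hA : B = false → a % 2 = 0 ∧ b % 2 = 0)
    (hB : B = true → (if cS B (kd B X) then 1 else 0) + (1 - a % 2) + (1 - b % 2) ≤ 1) :
    4000 * (n / 2) ≤ n * (G X true + Lt (a + 1) (b + 1) (X.size - 1)) +
      4000 * nu (join (join X (pth a)) (pth b)) := by
  have hm : n - a - b - 2 = X.size := by omega
  unfold fin at hfin
  rw [List.all_eq_true] at hfin
  have h1 := hfin a (List.mem_range.2 (by omega))
  rw [List.all_eq_true] at h1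
  have h2 := h1 b (List.mem_range.2 (by omega))
  rw [Bool.or_eq_true, Bool.or_eq_true, decide_eq_true_eq, List.all_eq_true] at h2
  have h3 : ∀ s ∈ allS, fin1 B n α F1 a b s = true := by
    rcases h2 with (h2 | h2) | h2
    · omega
    · rw [Bool.and_eq_true, Bool.or_eq_true, decide_eq_true_eq, decide_eq_true_eq,
        Bool.not_eq_true'] at h2
      have := hA h2.1
      omega
    · exact h2
  have h4 := h3 (kd B X) (mem_allS _)
  unfold fin1 at h4
  rw [hm, av_kd, isP_kd] at h4
  have hcmp : cmp X.size (kd B X) = true := by
    unfold kd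
    split_ifs with g1 g2 g3 g4
    · omega
    · show decide (X.size = 2) = true
      exact decide_eq_true g3
    · show (decide (3 ≤ X.size) && decide (X.size % 2 = 1)) = true
      rw [decide_eq_true (by omega : 3 ≤ X.size), decide_eq_true g4]; rfl
    · show (decide (4 ≤ X.size) && decide (X.size % 2 = 0)) = true
      rw [decide_eq_true (by omega : 4 ≤ X.size), decide_eq_true (by omega : X.size % 2 = 0)]; rfl
    · show (decide (3 ≤ X.size) && (decide (X.size % 2 = 1) == decide (X.size % 2 = 1))) = true
      have : 3 ≤ X.size := by
        by_contra hc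
        exact g1 (isp_of_size_le (by omega))
      rw [decide_eq_true this, beq_self_eq_true]; rfl
  rw [hcmp, Bool.not_true, Bool.false_or, Bool.or_eq_true, Bool.and_eq_true,
    decide_eq_true_eq] at h4
  have h5 : ¬ (B = true ∧ 2 ≤ (if cS B (kd B X) = true then 1 else 0) + (1 - a % 2) +
      (1 - b % 2)) := by
    rintro ⟨h6, h7⟩
    have := hB h6
    omega
  have h6 := h4.resolve_left h5
  have h7 := nu_T X a b
  have e4 : (if (av X && (decide (a % 2 = 0) || decide (b % 2 = 0))) = true then 4000 else 0) =
      4000 * (if (av X && (decide (a % 2 = 0) || decide (b % 2 = 0))) = true then 1 else 0) := by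
    split_ifs <;> rfl
  rw [e4] at h6
  rw [mul_add]
  by_cases hp : isp X = true
  · rw [if_pos hp, decide_eq_true_eq] at h6
    have h8 := (isp_facts B X hp).2.2
    have h9 : 0 ≤ n * G X true := Nat.zero_le _
    omega
  · rw [if_neg hp, decide_eq_true_eq] at h6
    have h8 : F1.getD (ix (kd B X)) 0 + 2000 * X.size ≤
        1000000 + n * G X true + 4000 * nu X + α * X.size := pot B n α F0 F1 hcl X hg true
    omega

theorem good_false (t : BT) : good (CB false) t = true ∧ cnt (CB false) t = 0 := by
  induction t with
  | leaf => exact ⟨rfl, rfl⟩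
  | join s t ihs iht =>
    have h1 : cnt (CB false) (join s t) =
      cnt (CB false) s + (if isp t && CB false t.size then 1 else 0) := rfl
    have h2 : (isp t && CB false t.size) = false := by
      show (isp t && false) = false
      exact Bool.and_false _
    rw [h2, ihs.2] at h1
    have h3 : cnt (CB false) (join s t) = 0 := h1
    refine ⟨?_, h3⟩
    show (good (CB false) s && good (CB false) t && decide (cnt (CB false) (join s t) ≤ 1)) = true
    rw [ihs.1, iht.1, h3]; rfl

theorem potA : S_POTA := by
  intro X a b n ha hb hX hn h6
  by_cases h32 : 32 ≤ n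
  · exact large X a b n hn h32
  · have hc := chkA
    unfold chk at hc
    rw [List.all_eq_true] at hc
    have h1 := hc (n - 6) (List.mem_range.2 (by omega))
    rw [Bool.and_eq_true, (by omega : n - 6 + 6 = n)] at h1
    exact small false n _ _ _ h1.1 h1.2 X a b (good_false X).1 hX hn (fun _ => ⟨ha, hb⟩)
      (fun h => absurd h (by decide))

theorem potB : S_POTB := by
  intro X a b n hg hX hn h6
  by_cases h32 : 32 ≤ n
  · exact large X a b n hn h32
  · have hc := chkB
    unfold chk at hc
    rw [List.all_eq_true] at hc
    have h1 := hc (n - 6) (List.mem_range.2 (by omega))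
    rw [Bool.and_eq_true, (by omega : n - 6 + 6 = n)] at h1
    have hC : (fun k : ℕ => decide (k % 2 = 1)) = CB true := rfl
    rw [hC] at hg
    have hg1 : (good (CB true) (join X (pth a)) && good (CB true) (pth b) &&
        decide (cnt (CB true) (join (join X (pth a)) (pth b)) ≤ 1)) = true := hg
    rw [Bool.and_eq_true, Bool.and_eq_true, decide_eq_true_eq] at hg1
    have hg2 : (good (CB true) X && good (CB true) (pth a) &&
        decide (cnt (CB true) (join X (pth a)) ≤ 1)) = true := hg1.1.1
    rw [Bool.and_eq_true, Bool.and_eq_true] at hg2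
    refine small true n _ _ _ h1.1 h1.2 X a b hg2.1.1 hX hn (fun h => absurd h (by decide))
      (fun _ => ?_)
    have h2 : cnt (CB true) (join (join X (pth a)) (pth b)) = cnt (CB true) X +
        (if isp (pth a) && CB true (pth a).size then 1 else 0) +
        (if isp (pth b) && CB true (pth b).size then 1 else 0) := rfl
    have h3 : ∀ c : ℕ, (if isp (pth c) && CB true (pth c).size then 1 else 0) = 1 - c % 2 := by
      intro c
      rw [isp_pth, size_pth]
      have : (true && CB true (c + 1)) = decide ((c + 1) % 2 = 1) := rfl
      rw [this]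
      rcases Nat.mod_two_eq_zero_or_one c with h | h
      · rw [h, (by omega : (c + 1) % 2 = 1)]; rfl
      · rw [h, (by omega : (c + 1) % 2 = 0)]; rfl
    rw [h3, h3] at h2
    have h4 := hg1.2
    rw [h2] at h4
    rw [cS_kd]
    have h5 : (if decide (cnt (CB true) X = 1) = true then 1 else 0) ≤ cnt (CB true) X := by
      by_cases h : cnt (CB true) X = 1
      · rw [decide_eq_true h, h]; exact le_rfl
      · rw [decide_eq_false h]; exact Nat.zero_le _
    omega

end Pool.Agent.W73.LE
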